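import Pool.Agent.Helper31.MM.Poi
import Pool.Agent.Helper63.MM.Defs4

/-!
Project MM, block B4, row POI in the conventions of `CM`.
-/

open MeasureTheory

namespace CM

variable {n : ℕ}

theorem norm_sq_fderiv (u : E n → ℝ) (x : E n) :
    ‖fderiv ℝ u x‖ ^ 2 = ∑ i, pd i u x ^ 2 := by
  have h := (EuclideanSpace.basisFun (Fin n) ℝ).norm_dual (fderiv ℝ u x)
  rw [h]
  refine Finset.sum_congr rfl (fun i _ => ?_)
  rw [EuclideanSpace.basisFun_apply]
  simp [pd]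

theorem integrable_pg {K : ℝ} {W f : E n → ℝ} (hWc : Continuous W) (hW : GW K W)
    (hfc : Continuous f) (hf : PG f) : Integrable (fun x => f x * Real.exp (-(W x))) := by
  obtain ⟨C, k, hC⟩ := hf
  refine Pool.Agent.Helper31.MM.integrable_mul_growth W hWc (1 / 2) K (by norm_num) ?_ f hfc C k
    hC
  intro x
  have := (abs_le.1 (hW x)).1
  unfold qn at this
  linarith

theorem poincare (n : ℕ) (K : ℝ) : ∃ C : ℝ, 0 ≤ C ∧ ∀ W : E n → ℝ, Continuous W → GW K W →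
    ∀ u : E n → ℝ, PGC 1 u → wint W u = 0 →
      wint W (fun x => u x ^ 2) ≤ C * wint W (fun x => ∑ i, pd i u x ^ 2) := by
  refine ⟨Real.pi ^ 2 / 8 * Real.exp (4 * K), by positivity, ?_⟩
  intro W hWc hW u hu h0
  have hK : ∀ x, |W x - ‖x‖ ^ 2 / 2| ≤ K := hW
  -- growth
  obtain ⟨C0, k0, hC0⟩ := hu.2 [] (by simp)
  have hpd : ∀ i, PG (pd i u) := fun i => hu.2 [i] (by simp)
  choose Ci ki hCi using hpd
  set k := k0 + ∑ i, ki i with hk
  set C := |C0| + ∑ i, |Ci i| with hC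
  have hpow : ∀ (x : E n) (a : ℕ), a ≤ k → (1 + ‖x‖) ^ a ≤ (1 + ‖x‖) ^ k := fun x a ha =>
    pow_le_pow_right₀ (by linarith [norm_nonneg x]) ha
  have hSi : ∀ i, ki i ≤ ∑ j, ki j := fun i =>
    Finset.single_le_sum (f := ki) (fun j _ => Nat.zero_le _) (Finset.mem_univ i)
  have hu0 : ∀ x, |u x| ≤ C * (1 + ‖x‖) ^ k := by
    intro x
    have h1 := hC0 x
    have h2 := hpow x k0 (by omega)
    have h3 : 0 ≤ (1 + ‖x‖) ^ k0 := by positivity
    have h4 : (0 : ℝ) ≤ ∑ i, |Ci i| := Finset.sum_nonneg (fun i _ => abs_nonneg _)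
    calc |u x| ≤ C0 * (1 + ‖x‖) ^ k0 := h1
      _ ≤ |C0| * (1 + ‖x‖) ^ k0 := mul_le_mul_of_nonneg_right (le_abs_self _) h3
      _ ≤ C * (1 + ‖x‖) ^ k := by
        refine mul_le_mul ?_ h2 h3 (by positivity)
        rw [hC]
        linarith
  have hu1 : ∀ x, ‖fderiv ℝ u x‖ ≤ C * (1 + ‖x‖) ^ k := by
    intro x
    have h1 : ‖fderiv ℝ u x‖ ≤ ∑ i, |pd i u x| := by
      have h2 : ‖fderiv ℝ u x‖ ^ 2 ≤ (∑ i, |pd i u x|) ^ 2 := by
        rw [norm_sq_fderiv]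
        calc ∑ i, pd i u x ^ 2 = ∑ i, |pd i u x| ^ 2 := by simp_rw [sq_abs]
          _ ≤ (∑ i, |pd i u x|) ^ 2 :=
            Finset.sum_sq_le_sq_sum_of_nonneg (fun i _ => abs_nonneg _)
      exact le_of_sq_le_sq h2 (Finset.sum_nonneg (fun i _ => abs_nonneg _))
    refine le_trans h1 ?_
    have h3 : ∀ i, |pd i u x| ≤ |Ci i| * (1 + ‖x‖) ^ k := by
      intro i
      have h5 : 0 ≤ (1 + ‖x‖) ^ (ki i) := by positivity
      calc |pd i u x| ≤ Ci i * (1 + ‖x‖) ^ (ki i) := hCi i x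
        _ ≤ |Ci i| * (1 + ‖x‖) ^ (ki i) := mul_le_mul_of_nonneg_right (le_abs_self _) h5
        _ ≤ |Ci i| * (1 + ‖x‖) ^ k := by
          refine mul_le_mul_of_nonneg_left (hpow x _ ?_) (abs_nonneg _)
          have := hSi i
          omega
    calc ∑ i, |pd i u x| ≤ ∑ i, |Ci i| * (1 + ‖x‖) ^ k := Finset.sum_le_sum (fun i _ => h3 i)
      _ = (∑ i, |Ci i|) * (1 + ‖x‖) ^ k := by rw [Finset.sum_mul]
      _ ≤ C * (1 + ‖x‖) ^ k := by
        refine mul_le_mul_of_nonneg_right ?_ (by positivity)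
        rw [hC]
        linarith [abs_nonneg C0]
  have h := Pool.Agent.Helper31.MM.poincare_zero W hWc K hK u hu.1 C k hu0 hu1 h0
  unfold wint
  simp_rw [norm_sq_fderiv] at h
  exact h

end CM
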