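import Pool.Agent.Helper44.CM.Interface
import Pool.Agent.Helper12.MM.Defs
import Pool.Agent.Helper31.MM.PoiCM

/-!
Project MM: basic facts on Hessians in the conventions of `CM` (symmetry, positive determinant,
continuity of `WW V`), and the rows `ST_POI`, `ST_INT` of block B4.
-/

open MeasureTheory

namespace CM.H31

variable {n : ℕ}

theorem contDiff_pd {k : ℕ} {f : E n → ℝ} (hf : ContDiff ℝ (k + 1 : ℕ) f) (i : Fin n) :
    ContDiff ℝ k (pd i f) := by
  have h : ContDiff ℝ k (fderiv ℝ f) := by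
    refine hf.fderiv_right ?_
    push_cast
    exact le_refl _
  exact h.clm_apply contDiff_const

theorem pd_pd_eq {f : E n → ℝ} (hf : ContDiff ℝ 2 f) (i j : Fin n) (x : E n) :
    pd i (pd j f) x
      = fderiv ℝ (fderiv ℝ f) x (EuclideanSpace.single i 1) (EuclideanSpace.single j 1) := by
  have hd : Differentiable ℝ (fderiv ℝ f) :=
    (hf.fderiv_right (m := 1) (by norm_num)).differentiable (by norm_num)
  unfold pd
  rw [fderiv_clm_apply (hd x) (differentiableAt_const _)]
  simp

theorem pd_comm {f : E n → ℝ} (hf : ContDiff ℝ 2 f) (i j : Fin n) (x : E n) :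
    pd i (pd j f) x = pd j (pd i f) x := by
  rw [pd_pd_eq hf, pd_pd_eq hf]
  have h : IsSymmSndFDerivAt ℝ f x := (hf.contDiffAt).isSymmSndFDerivAt (by simp)
  exact h _ _

theorem hess_symm {f : E n → ℝ} (hf : ContDiff ℝ 2 f) (x : E n) : (hess f x).IsSymm := by
  refine Matrix.IsSymm.ext (fun i j => ?_)
  exact pd_comm hf j i x

theorem continuous_hess {f : E n → ℝ} (hf : ContDiff ℝ 2 f) (i j : Fin n) :
    Continuous (fun x => hess f x i j) := by
  have h1 : ContDiff ℝ 1 (pd j f) := contDiff_pd (k := 1) hf j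
  have h0 : ContDiff ℝ 0 (pd i (pd j f)) := contDiff_pd (k := 0) (by simpa using h1) i
  exact h0.continuous

theorem continuous_hess' {f : E n → ℝ} (hf : ContDiff ℝ 2 f) : Continuous (hess f) :=
  continuous_matrix (fun i j => continuous_hess hf i j)

theorem quad_eq (M : Mt n) (v : Fin n → ℝ) :
    star v ⬝ᵥ (M.mulVec v) = ∑ i, ∑ j, v i * M i j * v j := by
  simp only [dotProduct, Matrix.mulVec, Pi.star_apply, star_trivial, Finset.mul_sum, mul_assoc]

theorem posDef_of_LB {c : ℝ} (hc : 0 < c) {M : Mt n} (hs : M.IsSymm) (h : LB c M) :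
    M.PosDef := by
  refine Matrix.PosDef.of_dotProduct_mulVec_pos ?_ ?_
  · rw [Matrix.IsHermitian, Matrix.conjTranspose_eq_transpose_of_trivial]
    exact hs
  · intro v hv
    rw [quad_eq]
    refine lt_of_lt_of_le ?_ (h v)
    refine mul_pos hc ?_
    obtain ⟨i, hi⟩ : ∃ i, v i ≠ 0 := by
      by_contra hcon
      push Not at hcon
      exact hv (funext hcon)
    exact Finset.sum_pos' (fun j _ => sq_nonneg _) ⟨i, Finset.mem_univ i, by positivity⟩

theorem det_pos_of_LB {c : ℝ} (hc : 0 < c) {M : Mt n} (hs : M.IsSymm) (h : LB c M) :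
    0 < M.det := (posDef_of_LB hc hs h).det_pos

theorem continuous_eul {f : E n → ℝ} (hf : ContDiff ℝ 1 f) : Continuous (eul f) := by
  unfold eul
  exact (hf.continuous_fderiv one_ne_zero).clm_apply continuous_id

theorem continuous_WW {c : ℝ} (hc : 0 < c) {V : E n → ℝ} (hV : ContDiff ℝ 2 V)
    (hlo : ∀ x, LB c (hess V x)) : Continuous (WW V) := by
  unfold WW
  refine ((continuous_eul (hV.of_le (by norm_num))).sub hV.continuous).sub ?_
  refine Continuous.log ((continuous_hess' hV).matrix_det) (fun x => ?_)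
  exact (det_pos_of_LB hc (hess_symm hV x) (hlo x)).ne'

theorem pg_of_bound {f : E n → ℝ} {C : ℝ} {m : ℕ} (h : ∀ x, |f x| ≤ C * (1 + ‖x‖) ^ m) : PG f :=
  ⟨C, m, h⟩

theorem st_INT : ST_INT := by
  intro n c K V f C m hV hf hC
  have hW : Continuous (WW V) := continuous_WW hV.c_pos (hV.reg.of_le (by norm_num)) hV.lo
  exact integrable_pg hW (K := K) hV.gau hf ⟨C, m, hC⟩

theorem st_POI : ST_POI := by
  intro n K
  obtain ⟨C, hC0, hC⟩ := poincare n K
  refine ⟨C, hC0, ?_⟩
  intro c V f D m hV hf h0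
  have hW : Continuous (WW V) := continuous_WW hV.c_pos (hV.reg.of_le (by norm_num)) hV.lo
  exact hC (WW V) hW hV.gau f ⟨hf.1, fun l hl => ⟨D, m, hf.2 l hl⟩⟩ h0

end CM.H31
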