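import Mathlib

/-!
Project MM (MP_10bc19_gt), block POI: the Gaussian Poincare inequality (rotation argument) and
its transfer (Holley-Stroock) to the measures with density `exp (-W)`, `|W - |x|^2/2| ≤ K`;
integrability of functions of polynomial growth.
-/

namespace Pool.Agent.Helper31.MM

open MeasureTheory ProbabilityTheory Real
open scoped ENNReal

variable {E : Type*} [NormedAddCommGroup E] [InnerProductSpace ℝ E] [FiniteDimensional ℝ E]
  [MeasurableSpace E] [BorelSpace E]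

/-- Cauchy-Schwarz on an interval -/
theorem interval_cs (a : ℝ) (ha : 0 < a) (φ : ℝ → ℝ) (hφ : Continuous φ) :
    (∫ t in (0 : ℝ)..a, φ t) ^ 2 ≤ a * ∫ t in (0 : ℝ)..a, φ t ^ 2 := by
  have h0 : 0 ≤ ∫ t in (0 : ℝ)..a, (a * φ t - ∫ s in (0 : ℝ)..a, φ s) ^ 2 :=
    intervalIntegral.integral_nonneg ha.le (fun t _ => sq_nonneg _)
  set m := ∫ s in (0 : ℝ)..a, φ s with hm
  have h1 : ∫ t in (0 : ℝ)..a, (a * φ t - m) ^ 2
      = a ^ 2 * (∫ t in (0 : ℝ)..a, φ t ^ 2) - 2 * a * m * m + m ^ 2 * a := by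
    have e : ∀ t, (a * φ t - m) ^ 2 = a ^ 2 * φ t ^ 2 - 2 * a * m * φ t + m ^ 2 := by
      intro t
      ring
    simp_rw [e]
    rw [intervalIntegral.integral_add, intervalIntegral.integral_sub,
      intervalIntegral.integral_const_mul, intervalIntegral.integral_const_mul,
      intervalIntegral.integral_const, ← hm]
    · simp only [sub_zero, smul_eq_mul]
      ring
    all_goals exact Continuous.intervalIntegrable (by fun_prop) _ _
  rw [h1] at h0
  have h2 : 0 ≤ a * (a * (∫ t in (0 : ℝ)..a, φ t ^ 2) - m ^ 2) := by nlinarith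
  have h3 := nonneg_of_mul_nonneg_right h2 ha
  linarith

omit [FiniteDimensional ℝ E] [MeasurableSpace E] [BorelSpace E] in
/-- the pointwise estimate along the rotation path -/
theorem path_bound (f : E → ℝ) (hf : ContDiff ℝ 1 f) (p : E × E) :
    ENNReal.ofReal ((f p.2 - f p.1) ^ 2)
      ≤ ENNReal.ofReal (π / 2) * ∫⁻ θ in Set.Ioc (0 : ℝ) (π / 2),
        ENNReal.ofReal ((fderiv ℝ f (ContinuousLinearMap.rotation θ p).1
          (ContinuousLinearMap.rotation θ p).2) ^ 2) := by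
  have hpi : 0 < π / 2 := by positivity
  have hd : Continuous (fderiv ℝ f) := hf.continuous_fderiv one_ne_zero
  set φ : ℝ → ℝ := fun θ => fderiv ℝ f (ContinuousLinearMap.rotation θ p).1
          (ContinuousLinearMap.rotation θ p).2 with hφ
  have hc : Continuous φ := by
    rw [hφ]
    simp only [ContinuousLinearMap.rotation_apply]
    refine Continuous.clm_apply (hd.comp (by fun_prop)) (by fun_prop)
  have hder : ∀ θ : ℝ, HasDerivAt (fun t => f (Real.cos t • p.1 + Real.sin t • p.2)) (φ θ) θ := by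
    intro θ
    have h1 : HasDerivAt (fun t : ℝ => Real.cos t • p.1 + Real.sin t • p.2)
        (-Real.sin θ • p.1 + Real.cos θ • p.2) θ :=
      ((Real.hasDerivAt_cos θ).smul_const p.1).add ((Real.hasDerivAt_sin θ).smul_const p.2)
    have h2 := (hf.differentiable (by norm_num)
      (Real.cos θ • p.1 + Real.sin θ • p.2)).hasFDerivAt
    exact h2.comp_hasDerivAt θ h1
  have hint : ∫ θ in (0 : ℝ)..(π / 2), φ θ = f p.2 - f p.1 := by
    rw [intervalIntegral.integral_eq_sub_of_hasDerivAt (fun θ _ => hder θ)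
      (hc.intervalIntegrable _ _)]
    simp
  have hcs := interval_cs (π / 2) hpi φ hc
  rw [hint, intervalIntegral.integral_of_le hpi.le] at hcs
  refine le_trans (ENNReal.ofReal_le_ofReal hcs) ?_
  rw [ENNReal.ofReal_mul hpi.le, ofReal_integral_eq_lintegral_ofReal]
  · exact ((hc.pow 2).integrableOn_Icc).mono_set Set.Ioc_subset_Icc_self
  · exact Filter.Eventually.of_forall (fun y => sq_nonneg _)

/-- second moment of a linear form -/
theorem lintegral_dual_sq (L : E →L[ℝ] ℝ) :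
    ∫⁻ y, ENNReal.ofReal ((L y) ^ 2) ∂(stdGaussian E) = ENNReal.ofReal (‖L‖ ^ 2) := by
  have hL : MemLp (L : E → ℝ) 2 (stdGaussian E) :=
    IsGaussian.memLp_two_id.continuousLinearMap_comp L
  have h1 : ∫ y, (L y) ^ 2 ∂(stdGaussian E) = ‖L‖ ^ 2 := by
    have h2 := variance_dual_stdGaussian (E := E) L
    rw [variance_eq_sub hL, integral_strongDual_stdGaussian] at h2
    simpa using h2
  rw [← h1, ofReal_integral_eq_lintegral_ofReal hL.integrable_sq
    (Filter.Eventually.of_forall (fun y => sq_nonneg _))]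

theorem gaussian_pair (f : E → ℝ) (hf : ContDiff ℝ 1 f) :
    ∫⁻ p, ENNReal.ofReal ((f p.2 - f p.1) ^ 2) ∂((stdGaussian E).prod (stdGaussian E))
      ≤ ENNReal.ofReal (π ^ 2 / 4)
        * ∫⁻ x, ENNReal.ofReal (‖fderiv ℝ f x‖ ^ 2) ∂(stdGaussian E) := by
  have hd : Continuous (fderiv ℝ f) := hf.continuous_fderiv one_ne_zero
  set G : E × E → ℝ≥0∞ := fun p => ENNReal.ofReal ((fderiv ℝ f p.1 p.2) ^ 2) with hG
  have hGc : Continuous G := by
    refine ENNReal.continuous_ofReal.comp ((Continuous.clm_apply (hd.comp continuous_fst)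
      continuous_snd).pow 2)
  have hGm : Measurable G := hGc.measurable
  have hrot : Continuous (fun q : ℝ × (E × E) => ContinuousLinearMap.rotation q.1 q.2) := by
    simp only [ContinuousLinearMap.rotation_apply]
    fun_prop
  have hF : Continuous (fun q : ℝ × (E × E) => G (ContinuousLinearMap.rotation q.1 q.2)) :=
    hGc.comp hrot
  have hG1 : ∫⁻ p, G p ∂((stdGaussian E).prod (stdGaussian E))
      = ∫⁻ x, ENNReal.ofReal (‖fderiv ℝ f x‖ ^ 2) ∂(stdGaussian E) := by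
    rw [lintegral_prod _ hGm.aemeasurable]
    refine lintegral_congr (fun x => ?_)
    exact lintegral_dual_sq (fderiv ℝ f x)
  calc ∫⁻ p, ENNReal.ofReal ((f p.2 - f p.1) ^ 2) ∂((stdGaussian E).prod (stdGaussian E))
      ≤ ∫⁻ p, (ENNReal.ofReal (π / 2) * (∫⁻ θ in Set.Ioc (0 : ℝ) (π / 2),
          G (ContinuousLinearMap.rotation θ p))) ∂((stdGaussian E).prod (stdGaussian E)) :=
        lintegral_mono (fun p => path_bound f hf p)
    _ = ENNReal.ofReal (π / 2) * ∫⁻ p, (∫⁻ θ in Set.Ioc (0 : ℝ) (π / 2),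
          G (ContinuousLinearMap.rotation θ p)) ∂((stdGaussian E).prod (stdGaussian E)) := by
        rw [lintegral_const_mul' _ _ ENNReal.ofReal_ne_top]
    _ = ENNReal.ofReal (π / 2) * ∫⁻ θ in Set.Ioc (0 : ℝ) (π / 2),
          (∫⁻ p, G (ContinuousLinearMap.rotation θ p)
            ∂((stdGaussian E).prod (stdGaussian E))) := by
        rw [lintegral_lintegral_swap]
        exact (hF.comp continuous_swap).measurable.aemeasurable
    _ = ENNReal.ofReal (π / 2) * ∫⁻ θ in Set.Ioc (0 : ℝ) (π / 2),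
          (∫⁻ p, G p ∂((stdGaussian E).prod (stdGaussian E))) := by
        congr 1
        refine lintegral_congr (fun θ => ?_)
        have h0 : (stdGaussian E)[id] = 0 := by
          simp
        conv_rhs => rw [← IsGaussian.map_rotation_eq_self h0 θ]
        rw [lintegral_map hGm (by fun_prop)]
    _ = ENNReal.ofReal (π ^ 2 / 4)
        * ∫⁻ x, ENNReal.ofReal (‖fderiv ℝ f x‖ ^ 2) ∂(stdGaussian E) := by
        rw [hG1, lintegral_const, Measure.restrict_apply MeasurableSet.univ, Set.univ_inter,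
          Real.volume_Ioc, sub_zero, mul_comm (∫⁻ x, _ ∂_), ← mul_assoc, ← ENNReal.ofReal_mul
            (by positivity)]
        congr 2
        ring

/-- `exp (-b |x|^2)` is integrable -/
theorem integrable_exp_sq (b : ℝ) (hb : 0 < b) :
    Integrable (fun x : E => Real.exp (-b * ‖x‖ ^ 2)) := by
  have h := (GaussianFourier.integrable_cexp_neg_mul_sq_norm_add (V := E)
    (show 0 < (b : ℂ).re from hb) 0 (0 : E)).norm
  refine h.congr (Filter.Eventually.of_forall (fun x => ?_))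
  have e : (-(b : ℂ) * (‖x‖ : ℂ) ^ 2 + 0 * ((inner ℝ (0 : E) x : ℝ) : ℂ))
      = ((-b * ‖x‖ ^ 2 : ℝ) : ℂ) := by
    push_cast
    ring
  simp only [e, ← Complex.ofReal_exp, Complex.norm_real, Real.norm_eq_abs, Real.abs_exp]

/-- normalising constant -/
noncomputable def gc (E : Type*) [NormedAddCommGroup E] [InnerProductSpace ℝ E] : ℝ :=
  (2 * π) ^ (-(Module.finrank ℝ E : ℝ) / 2)

omit [FiniteDimensional ℝ E] [MeasurableSpace E] [BorelSpace E] in
theorem gc_pos : 0 < gc E := by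
  unfold gc
  positivity

/-- the standard Gaussian measure has the density `(2π)^(-n/2) exp (-|x|^2/2)` -/
theorem stdGaussian_eq_withDensity :
    stdGaussian E = (volume : Measure E).withDensity
      (fun x => ENNReal.ofReal (gc E * Real.exp (-(1 / 2) * ‖x‖ ^ 2))) := by
  have hi : Integrable (fun x : E => gc E * Real.exp (-(1 / 2) * ‖x‖ ^ 2)) :=
    (integrable_exp_sq (1 / 2) (by norm_num)).const_mul _
  have hfin : IsFiniteMeasure ((volume : Measure E).withDensity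
      (fun x => ENNReal.ofReal (gc E * Real.exp (-(1 / 2) * ‖x‖ ^ 2)))) :=
    isFiniteMeasure_withDensity_ofReal hi.2
  apply Measure.ext_of_charFun
  ext t
  rw [charFun_stdGaussian, charFun_apply,
    integral_withDensity_eq_integral_toReal_smul₀ (by fun_prop)
      (Filter.Eventually.of_forall (fun x => ENNReal.ofReal_lt_top))]
  have h1 : ∀ x : E, (ENNReal.ofReal (gc E * Real.exp (-(1 / 2) * ‖x‖ ^ 2))).toReal
      • Complex.exp (((inner ℝ x t : ℝ) : ℂ) * Complex.I)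
      = (gc E : ℂ) * Complex.exp (-(1 / 2 : ℂ) * (‖x‖ : ℂ) ^ 2
        + Complex.I * ((inner ℝ t x : ℝ) : ℂ)) := by
    intro x
    rw [ENNReal.toReal_ofReal (mul_nonneg gc_pos.le (Real.exp_pos _).le), Complex.real_smul,
      Complex.exp_add, real_inner_comm]
    push_cast
    ring_nf
  simp_rw [h1]
  rw [integral_const_mul, GaussianFourier.integral_cexp_neg_mul_sq_norm_add
    (by norm_num : 0 < (1 / 2 : ℂ).re)]
  have h2 : (gc E : ℂ) * ((π : ℂ) / (1 / 2)) ^ ((Module.finrank ℝ E : ℂ) / 2) = 1 := by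
    have h3 : ((π : ℂ) / (1 / 2)) ^ ((Module.finrank ℝ E : ℂ) / 2)
        = (((2 * π) ^ ((Module.finrank ℝ E : ℝ) / 2) : ℝ) : ℂ) := by
      rw [Complex.ofReal_cpow (by positivity)]
      push_cast
      congr 1
      ring
    rw [h3, ← Complex.ofReal_mul, gc, ← Real.rpow_add (by positivity)]
    have h4 : -(Module.finrank ℝ E : ℝ) / 2 + (Module.finrank ℝ E : ℝ) / 2 = 0 := by ring
    rw [h4, Real.rpow_zero, Complex.ofReal_one]
  rw [← mul_assoc, h2, one_mul]
  congr 1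
  rw [Complex.I_sq]
  ring


omit [BorelSpace E] in
/-- the pair form of the variance -/
theorem pair_eq (μ : Measure E) [IsFiniteMeasure μ] (f : E → ℝ) (hf : MemLp f 2 μ)
    (h0 : ∫ x, f x ∂μ = 0) :
    ∫⁻ p, ENNReal.ofReal ((f p.2 - f p.1) ^ 2) ∂(μ.prod μ)
      = ENNReal.ofReal (2 * μ.real Set.univ * ∫ x, f x ^ 2 ∂μ) := by
  have i1 : Integrable f μ := hf.integrable (by norm_num)
  have i2 : Integrable (fun x => f x ^ 2) μ := hf.integrable_sq
  have j1 : Integrable (fun p : E × E => f p.2 ^ 2) (μ.prod μ) := i2.comp_snd μ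
  have j2 : Integrable (fun p : E × E => f p.1 ^ 2) (μ.prod μ) := i2.comp_fst μ
  have j3 : Integrable (fun p : E × E => f p.1 * f p.2) (μ.prod μ) := i1.mul_prod i1
  have e : ∀ p : E × E, (f p.2 - f p.1) ^ 2 = f p.2 ^ 2 + f p.1 ^ 2 - 2 * (f p.1 * f p.2) :=
    fun p => by ring
  have j4 : Integrable (fun p : E × E => (f p.2 - f p.1) ^ 2) (μ.prod μ) := by
    simp_rw [e]
    exact (j1.add j2).sub (j3.const_mul 2)
  rw [← ofReal_integral_eq_lintegral_ofReal j4
    (Filter.Eventually.of_forall (fun y => sq_nonneg _))]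
  congr 1
  simp_rw [e]
  have s1 : ∫ p : E × E, (f p.2 ^ 2 + f p.1 ^ 2 - 2 * (f p.1 * f p.2)) ∂(μ.prod μ)
      = ∫ p : E × E, (f p.2 ^ 2 + f p.1 ^ 2) ∂(μ.prod μ)
        - ∫ p : E × E, 2 * (f p.1 * f p.2) ∂(μ.prod μ) :=
    integral_sub (j1.add j2) (j3.const_mul 2)
  have s2 : ∫ p : E × E, (f p.2 ^ 2 + f p.1 ^ 2) ∂(μ.prod μ)
      = ∫ p : E × E, f p.2 ^ 2 ∂(μ.prod μ) + ∫ p : E × E, f p.1 ^ 2 ∂(μ.prod μ) :=
    integral_add j1 j2
  have s3 : ∫ p : E × E, f p.1 * f p.2 ∂(μ.prod μ) = 0 := by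
    rw [integral_prod_mul f f, h0, zero_mul]
  have s4 : ∫ p : E × E, f p.2 ^ 2 ∂(μ.prod μ) = μ.real Set.univ * ∫ x, f x ^ 2 ∂μ := by
    rw [integral_fun_snd (f := fun x => f x ^ 2), smul_eq_mul]
  have s5 : ∫ p : E × E, f p.1 ^ 2 ∂(μ.prod μ) = μ.real Set.univ * ∫ x, f x ^ 2 ∂μ := by
    rw [integral_fun_fst (f := fun x => f x ^ 2), smul_eq_mul]
  rw [s1, s2, integral_const_mul, s3, s4, s5]
  ring

/-- the measure with density `exp (-W)` -/
noncomputable def muW (W : E → ℝ) : Measure E :=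
  (volume : Measure E).withDensity (fun x => ENNReal.ofReal (Real.exp (-W x)))

theorem muW_le (W : E → ℝ) (K : ℝ) (hK : ∀ x, |W x - ‖x‖ ^ 2 / 2| ≤ K) :
    muW W ≤ ENNReal.ofReal (Real.exp K / gc E) • (stdGaussian E) := by
  rw [stdGaussian_eq_withDensity, ← withDensity_smul' _ _ ENNReal.ofReal_ne_top]
  refine withDensity_mono (Filter.Eventually.of_forall (fun x => ?_))
  have hg : 0 < gc E := gc_pos
  simp only [Pi.smul_apply, smul_eq_mul]
  rw [← ENNReal.ofReal_mul (by positivity)]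
  refine ENNReal.ofReal_le_ofReal ?_
  have e1 : Real.exp K / gc E * (gc E * Real.exp (-(1 / 2) * ‖x‖ ^ 2))
      = Real.exp (K + -(1 / 2) * ‖x‖ ^ 2) := by
    rw [Real.exp_add]
    field_simp
  rw [e1]
  refine Real.exp_le_exp.2 ?_
  have := (abs_le.1 (hK x)).1
  linarith

theorem le_muW (W : E → ℝ) (K : ℝ) (hK : ∀ x, |W x - ‖x‖ ^ 2 / 2| ≤ K) :
    stdGaussian E ≤ ENNReal.ofReal (gc E * Real.exp K) • muW W := by
  rw [stdGaussian_eq_withDensity, muW, ← withDensity_smul' _ _ ENNReal.ofReal_ne_top]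
  refine withDensity_mono (Filter.Eventually.of_forall (fun x => ?_))
  have hg : 0 < gc E := gc_pos
  simp only [Pi.smul_apply, smul_eq_mul]
  rw [← ENNReal.ofReal_mul (by positivity)]
  refine ENNReal.ofReal_le_ofReal ?_
  rw [mul_assoc, ← Real.exp_add]
  refine mul_le_mul_of_nonneg_left (Real.exp_le_exp.2 ?_) hg.le
  have := (abs_le.1 (hK x)).2
  linarith

theorem isFiniteMeasure_muW (W : E → ℝ) (K : ℝ) (hK : ∀ x, |W x - ‖x‖ ^ 2 / 2| ≤ K) :
    IsFiniteMeasure (muW W) := by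
  refine ⟨lt_of_le_of_lt (muW_le W K hK Set.univ) ?_⟩
  rw [Measure.smul_apply, measure_univ, smul_eq_mul, mul_one]
  exact ENNReal.ofReal_lt_top

omit [NormedAddCommGroup E] [InnerProductSpace ℝ E] [FiniteDimensional ℝ E] [BorelSpace E] in
theorem lintegral_le_of_measure_le {μ ν : Measure E} {a : ℝ≥0∞} (h : μ ≤ a • ν)
    (F : E → ℝ≥0∞) : ∫⁻ x, F x ∂μ ≤ a * ∫⁻ x, F x ∂ν := by
  refine le_trans (lintegral_mono' h (le_refl F)) ?_
  rw [lintegral_smul_measure, smul_eq_mul]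

theorem muW_real_univ (W : E → ℝ) (K : ℝ) (hK : ∀ x, |W x - ‖x‖ ^ 2 / 2| ≤ K) :
    Real.exp (-K) / gc E ≤ (muW W).real Set.univ := by
  have hg : 0 < gc E := gc_pos
  have hfin := isFiniteMeasure_muW W K hK
  have h1 := le_muW W K hK Set.univ
  rw [Measure.smul_apply, measure_univ, smul_eq_mul,
    ← ENNReal.ofReal_toReal (measure_ne_top (muW W) Set.univ),
    ← ENNReal.ofReal_mul (by positivity), ← ENNReal.ofReal_one,
    ENNReal.ofReal_le_ofReal_iff (by positivity)] at h1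
  change Real.exp (-K) / gc E ≤ (muW W Set.univ).toReal
  rw [div_le_iff₀ hg, Real.exp_neg, inv_le_iff_one_le_mul₀ (Real.exp_pos _)]
  linarith

/-- Holley-Stroock: the pair form -/
theorem muW_pair (W : E → ℝ) (K : ℝ) (hK : ∀ x, |W x - ‖x‖ ^ 2 / 2| ≤ K) (f : E → ℝ)
    (hf : ContDiff ℝ 1 f) :
    ∫⁻ p, ENNReal.ofReal ((f p.2 - f p.1) ^ 2) ∂((muW W).prod (muW W))
      ≤ ENNReal.ofReal (Real.exp (3 * K) / gc E * (π ^ 2 / 4))
        * ∫⁻ x, ENNReal.ofReal (‖fderiv ℝ f x‖ ^ 2) ∂(muW W) := by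
  have hg : 0 < gc E := gc_pos
  have hfin := isFiniteMeasure_muW W K hK
  have hFm : Measurable (fun p : E × E => ENNReal.ofReal ((f p.2 - f p.1) ^ 2)) := by
    have := hf.continuous
    exact (ENNReal.continuous_ofReal.comp (((this.comp continuous_snd).sub
      (this.comp continuous_fst)).pow 2)).measurable
  set a := ENNReal.ofReal (Real.exp K / gc E) with ha
  calc ∫⁻ p, ENNReal.ofReal ((f p.2 - f p.1) ^ 2) ∂((muW W).prod (muW W))
      = ∫⁻ x, ∫⁻ y, ENNReal.ofReal ((f y - f x) ^ 2) ∂(muW W) ∂(muW W) :=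
        lintegral_prod _ hFm.aemeasurable
    _ ≤ ∫⁻ x, a * ∫⁻ y, ENNReal.ofReal ((f y - f x) ^ 2) ∂(stdGaussian E) ∂(muW W) :=
        lintegral_mono (fun x => lintegral_le_of_measure_le (muW_le W K hK) _)
    _ = a * ∫⁻ x, ∫⁻ y, ENNReal.ofReal ((f y - f x) ^ 2) ∂(stdGaussian E) ∂(muW W) :=
        lintegral_const_mul' _ _ ENNReal.ofReal_ne_top
    _ ≤ a * (a * ∫⁻ x, ∫⁻ y, ENNReal.ofReal ((f y - f x) ^ 2)
          ∂(stdGaussian E) ∂(stdGaussian E)) := by
        gcongr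
        exact lintegral_le_of_measure_le (muW_le W K hK) _
    _ = a * (a * ∫⁻ p, ENNReal.ofReal ((f p.2 - f p.1) ^ 2)
          ∂((stdGaussian E).prod (stdGaussian E))) := by
        rw [lintegral_prod _ hFm.aemeasurable]
    _ ≤ a * (a * (ENNReal.ofReal (π ^ 2 / 4)
          * ∫⁻ x, ENNReal.ofReal (‖fderiv ℝ f x‖ ^ 2) ∂(stdGaussian E))) := by
        gcongr
        exact gaussian_pair f hf
    _ ≤ a * (a * (ENNReal.ofReal (π ^ 2 / 4) * (ENNReal.ofReal (gc E * Real.exp K)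
          * ∫⁻ x, ENNReal.ofReal (‖fderiv ℝ f x‖ ^ 2) ∂(muW W)))) := by
        gcongr
        exact lintegral_le_of_measure_le (le_muW W K hK) _
    _ = ENNReal.ofReal (Real.exp (3 * K) / gc E * (π ^ 2 / 4))
        * ∫⁻ x, ENNReal.ofReal (‖fderiv ℝ f x‖ ^ 2) ∂(muW W) := by
        rw [ha, ← mul_assoc, ← mul_assoc, ← mul_assoc, ← ENNReal.ofReal_mul (by positivity),
          ← ENNReal.ofReal_mul (by positivity), ← ENNReal.ofReal_mul (by positivity)]
        congr 2
        have e3 : Real.exp (3 * K) = Real.exp K * Real.exp K * Real.exp K := by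
          rw [← Real.exp_add, ← Real.exp_add]
          congr 1
          ring
        rw [e3]
        field_simp

/-- Poincare inequality for `muW`, mean zero functions -/
theorem poincare_muW (W : E → ℝ) (K : ℝ) (hK : ∀ x, |W x - ‖x‖ ^ 2 / 2| ≤ K) (f : E → ℝ)
    (hf : ContDiff ℝ 1 f) (h2 : MemLp f 2 (muW W))
    (hd : Integrable (fun x => ‖fderiv ℝ f x‖ ^ 2) (muW W)) (h0 : ∫ x, f x ∂(muW W) = 0) :
    ∫ x, f x ^ 2 ∂(muW W)
      ≤ π ^ 2 / 8 * Real.exp (4 * K) * ∫ x, ‖fderiv ℝ f x‖ ^ 2 ∂(muW W) := by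
  have hg : 0 < gc E := gc_pos
  have hfin := isFiniteMeasure_muW W K hK
  have h3 := muW_pair W K hK f hf
  rw [pair_eq (muW W) f h2 h0, ← ofReal_integral_eq_lintegral_ofReal hd
    (Filter.Eventually.of_forall (fun y => sq_nonneg _)),
    ← ENNReal.ofReal_mul (by positivity)] at h3
  have hI : 0 ≤ ∫ x, ‖fderiv ℝ f x‖ ^ 2 ∂(muW W) := integral_nonneg (fun x => sq_nonneg _)
  have hJ : 0 ≤ ∫ x, f x ^ 2 ∂(muW W) := integral_nonneg (fun x => sq_nonneg _)
  rw [ENNReal.ofReal_le_ofReal_iff (by positivity)] at h3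
  have h4 := muW_real_univ W K hK
  have h5 : 2 * (Real.exp (-K) / gc E) * ∫ x, f x ^ 2 ∂(muW W)
      ≤ Real.exp (3 * K) / gc E * (π ^ 2 / 4) * ∫ x, ‖fderiv ℝ f x‖ ^ 2 ∂(muW W) := by
    refine le_trans ?_ h3
    gcongr
  have h6 : 0 < Real.exp K * gc E / 2 := by positivity
  have h7 := mul_le_mul_of_nonneg_left h5 h6.le
  have e4 : Real.exp K * gc E / 2 * (2 * (Real.exp (-K) / gc E) * ∫ x, f x ^ 2 ∂(muW W))
      = ∫ x, f x ^ 2 ∂(muW W) := by
    have : Real.exp K * Real.exp (-K) = 1 := by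
      rw [← Real.exp_add, add_neg_cancel, Real.exp_zero]
    field_simp
    linear_combination (∫ x, f x ^ 2 ∂(muW W)) * this
  have e5 : Real.exp K * gc E / 2 * (Real.exp (3 * K) / gc E * (π ^ 2 / 4)
      * ∫ x, ‖fderiv ℝ f x‖ ^ 2 ∂(muW W))
      = π ^ 2 / 8 * Real.exp (4 * K) * ∫ x, ‖fderiv ℝ f x‖ ^ 2 ∂(muW W) := by
    have : Real.exp (4 * K) = Real.exp K * Real.exp (3 * K) := by
      rw [← Real.exp_add]
      congr 1
      ring
    rw [this]
    field_simp
    ring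
  rw [e4, e5] at h7
  exact h7

theorem pow_le_exp_sq (N : ℕ) (c : ℝ) (hc : 0 < c) (r : ℝ) (hr : 0 ≤ r) :
    (1 + r) ^ N ≤ (N.factorial : ℝ) * Real.exp (1 + 1 / (2 * c)) * Real.exp (c / 2 * r ^ 2) := by
  have h1 : (1 + r) ^ N / (N.factorial : ℝ) ≤ Real.exp (1 + r) :=
    Real.pow_div_factorial_le_exp (1 + r) (by positivity) N
  have hN : (0 : ℝ) < (N.factorial : ℝ) := by exact_mod_cast Nat.factorial_pos N
  rw [div_le_iff₀ hN] at h1
  have h2 : r ≤ 1 / (2 * c) + c / 2 * r ^ 2 := by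
    have h3 : 0 ≤ c / 2 * (r - 1 / c) ^ 2 := by positivity
    have h4 : c / 2 * (r - 1 / c) ^ 2 = 1 / (2 * c) + c / 2 * r ^ 2 - r := by
      field_simp
      ring
    linarith
  have h5 : Real.exp (1 + r) ≤ Real.exp (1 + 1 / (2 * c)) * Real.exp (c / 2 * r ^ 2) := by
    rw [← Real.exp_add]
    exact Real.exp_le_exp.2 (by linarith)
  calc (1 + r) ^ N ≤ Real.exp (1 + r) * (N.factorial : ℝ) := h1
    _ ≤ (Real.exp (1 + 1 / (2 * c)) * Real.exp (c / 2 * r ^ 2)) * (N.factorial : ℝ) :=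
        mul_le_mul_of_nonneg_right h5 hN.le
    _ = (N.factorial : ℝ) * Real.exp (1 + 1 / (2 * c)) * Real.exp (c / 2 * r ^ 2) := by ring

/-- functions of polynomial growth are integrable against `exp (-W)`, `W ≥ c |x|^2 - K` -/
theorem integrable_growth (W : E → ℝ) (hW : Continuous W) (c K : ℝ) (hc : 0 < c)
    (hK : ∀ x, c * ‖x‖ ^ 2 - K ≤ W x) {F : Type*} [NormedAddCommGroup F] [NormedSpace ℝ F]
    (g : E → F) (hg : AEStronglyMeasurable g volume) (C : ℝ) (N : ℕ)
    (hC : ∀ x, ‖g x‖ ≤ C * (1 + ‖x‖) ^ N) :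
    Integrable (fun x => Real.exp (-W x) • g x) := by
  have hC0 : 0 ≤ C := by
    have := le_trans (norm_nonneg _) (hC 0)
    simpa using this
  set D : ℝ := C * ((N.factorial : ℝ) * Real.exp (1 + 1 / (2 * c))) * Real.exp K with hD
  have hi : Integrable (fun x : E => D * Real.exp (-(c / 2) * ‖x‖ ^ 2)) :=
    (integrable_exp_sq (c / 2) (by positivity)).const_mul _
  refine hi.mono' ?_ (Filter.Eventually.of_forall (fun x => ?_))
  · exact ((Real.continuous_exp.comp hW.neg).aestronglyMeasurable).smul hg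
  · rw [norm_smul, Real.norm_eq_abs, Real.abs_exp]
    have h1 : Real.exp (-W x) ≤ Real.exp K * Real.exp (-c * ‖x‖ ^ 2) := by
      rw [← Real.exp_add]
      exact Real.exp_le_exp.2 (by linarith [hK x])
    have h2 : ‖g x‖ ≤ C * ((N.factorial : ℝ) * Real.exp (1 + 1 / (2 * c))
        * Real.exp (c / 2 * ‖x‖ ^ 2)) :=
      le_trans (hC x) (mul_le_mul_of_nonneg_left (pow_le_exp_sq N c hc ‖x‖ (norm_nonneg _)) hC0)
    calc Real.exp (-W x) * ‖g x‖
        ≤ (Real.exp K * Real.exp (-c * ‖x‖ ^ 2))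
          * (C * ((N.factorial : ℝ) * Real.exp (1 + 1 / (2 * c))
            * Real.exp (c / 2 * ‖x‖ ^ 2))) :=
          mul_le_mul h1 h2 (norm_nonneg _) (by positivity)
      _ = D * (Real.exp (-c * ‖x‖ ^ 2) * Real.exp (c / 2 * ‖x‖ ^ 2)) := by
          rw [hD]
          ring
      _ = D * Real.exp (-(c / 2) * ‖x‖ ^ 2) := by
          rw [← Real.exp_add]
          congr 2
          ring

theorem integral_muW (W : E → ℝ) (hW : Continuous W) (g : E → ℝ) :
    ∫ x, g x ∂(muW W) = ∫ x, g x * Real.exp (-W x) := by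
  unfold muW
  rw [integral_withDensity_eq_integral_toReal_smul₀
    (by
      have := hW
      fun_prop)
    (Filter.Eventually.of_forall (fun x => ENNReal.ofReal_lt_top))]
  refine integral_congr_ae (Filter.Eventually.of_forall (fun x => ?_))
  simp only [smul_eq_mul, ENNReal.toReal_ofReal (Real.exp_pos _).le, mul_comm]

theorem integrable_muW (W : E → ℝ) (hW : Continuous W) (g : E → ℝ)
    (h : Integrable (fun x => g x * Real.exp (-W x))) : Integrable g (muW W) := by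
  unfold muW
  rw [integrable_withDensity_iff_integrable_smul₀'
    (by
      have := hW
      fun_prop)
    (Filter.Eventually.of_forall (fun x => ENNReal.ofReal_lt_top))]
  refine h.congr (Filter.Eventually.of_forall (fun x => ?_))
  simp only [smul_eq_mul, ENNReal.toReal_ofReal (Real.exp_pos _).le, mul_comm]

theorem integrable_mul_growth (W : E → ℝ) (hW : Continuous W) (c K : ℝ) (hc : 0 < c)
    (hK : ∀ x, c * ‖x‖ ^ 2 - K ≤ W x) (g : E → ℝ) (hg : Continuous g) (C : ℝ) (N : ℕ)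
    (hC : ∀ x, |g x| ≤ C * (1 + ‖x‖) ^ N) :
    Integrable (fun x => g x * Real.exp (-W x)) := by
  have h := integrable_growth W hW c K hc hK g hg.aestronglyMeasurable C N hC
  refine h.congr (Filter.Eventually.of_forall (fun x => ?_))
  simp only [smul_eq_mul, mul_comm]

/-- Poincare inequality, mean zero functions of polynomial growth -/
theorem poincare_zero (W : E → ℝ) (hW : Continuous W) (K : ℝ)
    (hK : ∀ x, |W x - ‖x‖ ^ 2 / 2| ≤ K) (u : E → ℝ) (hu : ContDiff ℝ 1 u) (C : ℝ) (N : ℕ)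
    (hC : ∀ x, |u x| ≤ C * (1 + ‖x‖) ^ N) (hC' : ∀ x, ‖fderiv ℝ u x‖ ≤ C * (1 + ‖x‖) ^ N)
    (h0 : ∫ x, u x * Real.exp (-W x) = 0) :
    ∫ x, u x ^ 2 * Real.exp (-W x)
      ≤ π ^ 2 / 8 * Real.exp (4 * K) * ∫ x, ‖fderiv ℝ u x‖ ^ 2 * Real.exp (-W x) := by
  have hK' : ∀ x : E, (1 / 2 : ℝ) * ‖x‖ ^ 2 - K ≤ W x := by
    intro x
    have := (abs_le.1 (hK x)).1
    linarith
  have hfin := isFiniteMeasure_muW W K hK
  have hsq : ∀ (v : ℝ) (x : E), 0 ≤ v → v ≤ C * (1 + ‖x‖) ^ N →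
      |v ^ 2| ≤ C ^ 2 * (1 + ‖x‖) ^ (2 * N) := by
    intro v x hv h
    rw [abs_of_nonneg (sq_nonneg v)]
    calc v ^ 2 ≤ (C * (1 + ‖x‖) ^ N) ^ 2 := pow_le_pow_left₀ hv h 2
      _ = C ^ 2 * (1 + ‖x‖) ^ (2 * N) := by
        rw [mul_pow, ← pow_mul, mul_comm N 2]
  have i1 : Integrable (fun x => u x ^ 2 * Real.exp (-W x)) := by
    refine integrable_mul_growth W hW (1 / 2) K (by norm_num) hK' (fun x => u x ^ 2)
      (hu.continuous.pow 2) (C ^ 2) (2 * N) (fun x => ?_)
    have := hsq (|u x|) x (abs_nonneg _) (hC x)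
    rwa [sq_abs] at this
  have i2 : Integrable (fun x => ‖fderiv ℝ u x‖ ^ 2 * Real.exp (-W x)) := by
    refine integrable_mul_growth W hW (1 / 2) K (by norm_num) hK'
      (fun x => ‖fderiv ℝ u x‖ ^ 2)
      ((hu.continuous_fderiv one_ne_zero).norm.pow 2) (C ^ 2) (2 * N) (fun x => ?_)
    exact hsq _ x (norm_nonneg _) (hC' x)
  have m1 : MemLp u 2 (muW W) := by
    rw [memLp_two_iff_integrable_sq hu.continuous.aestronglyMeasurable]
    exact integrable_muW W hW _ i1
  have m2 := integrable_muW W hW _ i2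
  have m0 : ∫ x, u x ∂(muW W) = 0 := by rw [integral_muW W hW, h0]
  have h := poincare_muW W K hK u hu m1 m2 m0
  rwa [integral_muW W hW, integral_muW W hW] at h

/-- Poincare inequality, functions of polynomial growth -/
theorem poincare_mean (W : E → ℝ) (hW : Continuous W) (K : ℝ)
    (hK : ∀ x, |W x - ‖x‖ ^ 2 / 2| ≤ K) (u : E → ℝ) (hu : ContDiff ℝ 1 u) (C : ℝ) (N : ℕ)
    (hC : ∀ x, |u x| ≤ C * (1 + ‖x‖) ^ N) (hC' : ∀ x, ‖fderiv ℝ u x‖ ≤ C * (1 + ‖x‖) ^ N) :
    ∫ x, (u x - (∫ y, u y * Real.exp (-W y)) / ∫ y, Real.exp (-W y)) ^ 2 * Real.exp (-W x)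
      ≤ π ^ 2 / 8 * Real.exp (4 * K) * ∫ x, ‖fderiv ℝ u x‖ ^ 2 * Real.exp (-W x) := by
  have hK' : ∀ x : E, (1 / 2 : ℝ) * ‖x‖ ^ 2 - K ≤ W x := by
    intro x
    have := (abs_le.1 (hK x)).1
    linarith
  have i0 : Integrable (fun x : E => Real.exp (-W x)) := by
    have := integrable_mul_growth W hW (1 / 2) K (by norm_num) hK' (fun _ => 1)
      continuous_const 1 0 (fun x => by simp)
    simpa using this
  have i1 : Integrable (fun x : E => u x * Real.exp (-W x)) :=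
    integrable_mul_growth W hW (1 / 2) K (by norm_num) hK' u hu.continuous C N hC
  have hpos : 0 < ∫ y : E, Real.exp (-W y) := integral_exp_pos i0
  set m : ℝ := (∫ y, u y * Real.exp (-W y)) / ∫ y, Real.exp (-W y) with hm
  have hC0 : 0 ≤ C := by
    have := le_trans (abs_nonneg _) (hC 0)
    simpa using this
  have hfd : ∀ x, fderiv ℝ (fun y => u y - m) x = fderiv ℝ u x := fun x => by
    rw [fderiv_sub_const]
  have h := poincare_zero W hW K hK (fun x => u x - m) (hu.sub contDiff_const) (C + |m|) N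
    (fun x => by
      have h1 : 1 ≤ (1 + ‖x‖) ^ N := one_le_pow₀ (by linarith [norm_nonneg x])
      calc |u x - m| ≤ |u x| + |m| := abs_sub _ _
        _ ≤ C * (1 + ‖x‖) ^ N + |m| * (1 + ‖x‖) ^ N := by
          have := mul_le_mul_of_nonneg_left h1 (abs_nonneg m)
          linarith [hC x]
        _ = (C + |m|) * (1 + ‖x‖) ^ N := by ring)
    (fun x => by
      rw [hfd]
      have h1 : 0 ≤ |m| * (1 + ‖x‖) ^ N := by positivity
      calc ‖fderiv ℝ u x‖ ≤ C * (1 + ‖x‖) ^ N := hC' x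
        _ ≤ (C + |m|) * (1 + ‖x‖) ^ N := by nlinarith)
    (by
      have e : ∀ x, (u x - m) * Real.exp (-W x)
          = u x * Real.exp (-W x) - m * Real.exp (-W x) := fun x => by ring
      simp_rw [e]
      rw [integral_sub i1 (i0.const_mul m), integral_const_mul, hm]
      field_simp
      ring)
  simp_rw [hfd] at h
  exact h

end Pool.Agent.Helper31.MM
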